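import Pool.Agent.Lead.Spa3

set_option autoImplicit false

namespace Pool.Agent.Results.MP_ef40db_lc.Q1
open Pool.Agent.H11.PT Pool.Agent.Lead.Spa

theorem result : ∃ f : Inst → Option (List (Option ℕ)), PolyTime bits bits f ∧
    ∀ I, Valid I → (∀ L, f I = some L → Good I fun s => L.getD s none) ∧
      (f I = none → ¬ ∃ M, Good I M) :=
  ⟨alg, alg_pt.polyTime, fun _ V => alg_spec V⟩

end Pool.Agent.Results.MP_ef40db_lc.Q1
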